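import Mathlib

set_option autoImplicit false

namespace Pool.Agent.Results.MP_55e6a3_gt.ClosedImage

open Set Filter Topology

/-- Weakly θ-refinable: every open cover `𝒰` has an open refinement `⋃ 𝒱 n` such that every
point lies in at least one and at most finitely many members of some `𝒱 n`. -/
def WeaklyThetaRefinable (X : Type*) [TopologicalSpace X] : Prop :=
  ∀ 𝒰 : Set (Set X), (∀ U ∈ 𝒰, IsOpen U) → ⋃₀ 𝒰 = univ →
    ∃ 𝒱 : ℕ → Set (Set X), (∀ n, ∀ V ∈ 𝒱 n, IsOpen V ∧ ∃ U ∈ 𝒰, V ⊆ U) ∧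
      ∀ x, ∃ n, {V | V ∈ 𝒱 n ∧ x ∈ V}.Nonempty ∧ {V | V ∈ 𝒱 n ∧ x ∈ V}.Finite

/-! ### The space `Y` -/

structure YY : Type where
  a : Set ℝ
  ha : a.Countable
  t : ℝ

instance topY : TopologicalSpace YY where
  IsOpen U := ∀ y ∈ U, {z : YY | z.a ⊆ y.a ∧ z ∉ U}.Countable
  isOpen_univ := by
    intro y _
    convert Set.countable_empty
    ext z
    simp
  isOpen_inter := by
    intro U V hU hV y hy
    refine ((hU y hy.1).union (hV y hy.2)).mono ?_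
    rintro z ⟨hz, hz2⟩
    by_cases h : z ∈ U
    · exact Or.inr ⟨hz, fun h2 => hz2 ⟨h, h2⟩⟩
    · exact Or.inl ⟨hz, h⟩
  isOpen_sUnion := by
    rintro S hS y ⟨U, hU, hy⟩
    refine (hS U hU y hy).mono ?_
    rintro z ⟨hz, hz2⟩
    exact ⟨hz, fun h => hz2 ⟨U, hU, h⟩⟩

theorem isOpenY (U : Set YY) :
    IsOpen U ↔ ∀ y ∈ U, {z : YY | z.a ⊆ y.a ∧ z ∉ U}.Countable := Iff.rfl

theorem t1Y : T1Space YY := by
  refine ⟨fun q => ?_⟩
  rw [← isOpen_compl_iff, isOpenY]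
  intro y _
  refine (Set.countable_singleton q).mono ?_
  rintro z ⟨_, hz⟩
  simpa using hz

/-! ### The space `X` -/

/-- The levels, together with the map to `Y`. -/
def XL : ℕ → (T : Type) × (T → YY)
  | 0 => ⟨YY, id⟩
  | n + 1 => ⟨{p : Set (XL n).1 × YY // ¬ p.1.Countable ∧ InjOn (XL n).2 p.1 ∧
      ∀ b ∈ p.1, ((XL n).2 b).a ⊆ p.2.a}, fun p => p.1.2⟩

structure XX : Type where
  n : ℕ
  p : (XL n).1

def ff (q : XX) : YY := (XL q.n).2 q.p

/-- the ladder set of a point of level `n+1` -/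
def lad (n : ℕ) (p : (XL (n + 1)).1) : Set (XL n).1 := p.1.1

theorem lad_unc (n : ℕ) (p : (XL (n + 1)).1) : ¬ (lad n p).Countable := p.2.1

theorem lad_inj (n : ℕ) (p : (XL (n + 1)).1) : InjOn (XL n).2 (lad n p) := p.2.2.1

theorem lad_le (n : ℕ) (p : (XL (n + 1)).1) : ∀ b ∈ lad n p,
    ((XL n).2 b).a ⊆ (ff ⟨n + 1, p⟩).a := p.2.2.2

instance topX : TopologicalSpace XX where
  IsOpen U := ∀ (n : ℕ) (p : (XL (n + 1)).1), XX.mk (n + 1) p ∈ U →
    {b | b ∈ lad n p ∧ XX.mk n b ∉ U}.Countable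
  isOpen_univ := by
    intro n p _
    convert Set.countable_empty
    ext z
    simp
  isOpen_inter := by
    intro U V hU hV n p hp
    refine ((hU n p hp.1).union (hV n p hp.2)).mono ?_
    rintro z ⟨hz, hz2⟩
    by_cases h : XX.mk n z ∈ U
    · exact Or.inr ⟨hz, fun h2 => hz2 ⟨h, h2⟩⟩
    · exact Or.inl ⟨hz, h⟩
  isOpen_sUnion := by
    rintro S hS n p ⟨U, hU, hy⟩
    refine (hS U hU n p hy).mono ?_
    rintro z ⟨hz, hz2⟩
    exact ⟨hz, fun h => hz2 ⟨U, hU, h⟩⟩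

theorem isOpenX (U : Set XX) :
    IsOpen U ↔ ∀ (n : ℕ) (p : (XL (n + 1)).1), XX.mk (n + 1) p ∈ U →
      {b | b ∈ lad n p ∧ XX.mk n b ∉ U}.Countable := Iff.rfl

theorem t1X : T1Space XX := by
  refine ⟨fun q => ?_⟩
  rw [← isOpen_compl_iff, isOpenX]
  intro n p _
  apply Set.Subsingleton.countable
  rintro b ⟨_, hb⟩ b' ⟨_, hb'⟩
  have h1 : XX.mk n b = q := by simpa using hb
  have h2 : XX.mk n b' = q := by simpa using hb'
  have h3 : XX.mk n b = XX.mk n b' := h1.trans h2.symm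
  injection h3

theorem cont_ff : Continuous ff := by
  refine ⟨fun U hU => ?_⟩
  rw [isOpenX]
  intro n p hp
  have h1 := (isOpenY U).mp hU _ hp
  -- injective image of the exceptional set
  have hsub : (XL n).2 '' {b | b ∈ lad n p ∧ XX.mk n b ∉ ff ⁻¹' U}
      ⊆ {z : YY | z.a ⊆ (ff ⟨n + 1, p⟩).a ∧ z ∉ U} := by
    rintro z ⟨b, ⟨hb1, hb2⟩, rfl⟩
    exact ⟨lad_le n p b hb1, hb2⟩
  have h2 := h1.mono hsub
  exact Set.countable_of_injective_of_countable_image ((lad_inj n p).mono (fun b hb => hb.1)) h2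

theorem surj_ff : Function.Surjective ff := fun y => ⟨⟨0, y⟩, rfl⟩

theorem closed_ff : IsClosedMap ff := by
  intro C hC
  rw [← isOpen_compl_iff, isOpenY]
  intro y hy
  by_contra hunc
  -- split by levels
  have hsplit : {z : YY | z.a ⊆ y.a ∧ z ∉ (ff '' C)ᶜ}
      ⊆ ⋃ n : ℕ, {z : YY | z.a ⊆ y.a ∧ ∃ b : (XL n).1, XX.mk n b ∈ C ∧ (XL n).2 b = z} := by
    rintro z ⟨hz, hz2⟩
    have h3 : z ∈ ff '' C := by simpa using hz2
    obtain ⟨⟨n, b⟩, hb, hbz⟩ := h3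
    exact mem_iUnion.mpr ⟨n, hz, b, hb, hbz⟩
  have hex : ∃ n : ℕ, ¬ {z : YY | z.a ⊆ y.a ∧ ∃ b : (XL n).1, XX.mk n b ∈ C ∧
      (XL n).2 b = z}.Countable := by
    by_contra hcon
    push Not at hcon
    exact hunc ((Set.countable_iUnion hcon).mono hsplit)
  obtain ⟨n, hn⟩ := hex
  set D : Set YY := {z : YY | z.a ⊆ y.a ∧ ∃ b : (XL n).1, XX.mk n b ∈ C ∧ (XL n).2 b = z} with hD
  have hsurj : SurjOn (XL n).2 {b | XX.mk n b ∈ C} D := by
    rintro z ⟨_, b, hb, hbz⟩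
    exact ⟨b, hb, hbz⟩
  obtain ⟨B, hBC, hBD⟩ := hsurj.exists_bijOn_subset
  have hBunc : ¬ B.Countable := by
    intro h
    apply hn
    rw [← hBD.image_eq]
    exact h.image _
  have hBle : ∀ b ∈ B, ((XL n).2 b).a ⊆ y.a := fun b hb => (hBD.mapsTo hb).1
  let p : (XL (n + 1)).1 := ⟨(B, y), hBunc, hBD.injOn, hBle⟩
  have hfp : ff ⟨n + 1, p⟩ = y := rfl
  have hpC : XX.mk (n + 1) p ∈ C := by
    by_contra hpC
    have h4 := (isOpenX Cᶜ).mp hC.isOpen_compl n p hpC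
    apply hBunc
    refine h4.mono ?_
    intro b hb
    exact ⟨hb, fun h => h (hBC hb)⟩
  exact hy ⟨_, hpC, hfp⟩

theorem wtrX : WeaklyThetaRefinable XX := by
  intro 𝒰 hU hcov
  have hpick : ∀ x : XX, ∃ U ∈ 𝒰, x ∈ U := by
    intro x
    have : x ∈ ⋃₀ 𝒰 := by rw [hcov]; exact mem_univ x
    exact this
  choose P hP1 hP2 using hpick
  refine ⟨fun n => Set.range (fun p : (XL n).1 => P ⟨n, p⟩ ∩ {q : XX | q.n < n ∨ q = ⟨n, p⟩}),
    ?_, ?_⟩
  · rintro n V ⟨p, rfl⟩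
    refine ⟨(hU _ (hP1 _)).inter ?_, P ⟨n, p⟩, hP1 _, inter_subset_left⟩
    rw [isOpenX]
    intro m p' hp'
    convert Set.countable_empty
    ext b
    constructor
    · rintro ⟨_, hb⟩
      apply hb
      left
      rcases hp' with h | h
      · have h' : m + 1 < n := h
        show m < n
        omega
      · have h' : m + 1 = n := congrArg XX.n h
        show m < n
        omega
    · intro h
      exact h.elim
  · rintro ⟨n, p⟩
    refine ⟨n, ⟨_, ⟨p, rfl⟩, hP2 _, Or.inr rfl⟩, ?_⟩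
    refine (Set.finite_singleton (P ⟨n, p⟩ ∩ {q : XX | q.n < n ∨ q = ⟨n, p⟩})).subset ?_
    rintro V ⟨⟨p', rfl⟩, hV⟩
    rcases hV.2 with h | h
    · exact absurd h (lt_irrefl n)
    · have : p = p' := by injection h
      subst this
      rfl

theorem not_wtrY : ¬ WeaklyThetaRefinable YY := by
  intro hW
  obtain ⟨𝒱, h𝒱, hfin⟩ := hW (Set.range (fun A : {A : Set ℝ // A.Countable} =>
      {z : YY | z.a ⊆ A.1})) (by
    rintro U ⟨A, rfl⟩
    rw [isOpenY]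
    intro y hy
    convert Set.countable_empty
    ext z
    constructor
    · rintro ⟨h1, h2⟩
      exact h2 (h1.trans hy)
    · intro h
      exact h.elim) (by
    ext y
    simp only [mem_univ, iff_true]
    exact ⟨_, ⟨⟨y.a, y.ha⟩, rfl⟩, Subset.rfl⟩)
  let S : ℕ → Set YY := fun n => {y | {V | V ∈ 𝒱 n ∧ y ∈ V}.Nonempty ∧
    {V | V ∈ 𝒱 n ∧ y ∈ V}.Finite}
  have hA : ∀ n : ℕ, ∃ A : Set ℝ, A.Countable ∧
      ((∃ ξ ∈ S n, A ⊆ ξ.a) → ∀ A' : Set ℝ, A'.Countable → ∃ ξ ∈ S n, A' ⊆ ξ.a) := by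
    intro n
    by_cases h : ∀ A' : Set ℝ, A'.Countable → ∃ ξ ∈ S n, A' ⊆ ξ.a
    · exact ⟨∅, Set.countable_empty, fun _ => h⟩
    · push Not at h
      obtain ⟨A, hA1, hA2⟩ := h
      refine ⟨A, hA1, ?_⟩
      rintro ⟨ξ, hξ, hξ2⟩
      exact absurd hξ2 (hA2 ξ hξ)
  choose A hA1 hA2 using hA
  have hβ : (⋃ n, A n).Countable := Set.countable_iUnion hA1
  set β : Set ℝ := ⋃ n, A n with hβdef
  have huncR : ¬ (univ : Set ℝ).Countable := by
    intro h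
    exact Cardinal.not_countable_real h
  have hex : ∃ n, ¬ {t : ℝ | YY.mk β hβ t ∈ S n}.Countable := by
    by_contra hcon
    push Not at hcon
    apply huncR
    refine (Set.countable_iUnion hcon).mono ?_
    intro t _
    obtain ⟨n, hn⟩ := hfin (YY.mk β hβ t)
    exact mem_iUnion.mpr ⟨n, hn⟩
  obtain ⟨n, hn⟩ := hex
  have hcof : ∀ A' : Set ℝ, A'.Countable → ∃ ξ ∈ S n, A' ⊆ ξ.a := by
    apply hA2 n
    have hne : {t : ℝ | YY.mk β hβ t ∈ S n}.Nonempty := by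
      rw [Set.nonempty_iff_ne_empty]
      intro h
      apply hn
      rw [h]
      exact Set.countable_empty
    obtain ⟨t, ht⟩ := hne
    exact ⟨_, ht, Set.subset_iUnion A n⟩
  have hbound : ∀ V : Set YY, ∃ a : Set ℝ, a.Countable ∧ (V ∈ 𝒱 n → ∀ z ∈ V, z.a ⊆ a) := by
    intro V
    by_cases hV : V ∈ 𝒱 n
    · obtain ⟨_, U, ⟨⟨a, ha⟩, rfl⟩, hVU⟩ := h𝒱 n V hV
      exact ⟨a, ha, fun _ z hz => hVU hz⟩
    · exact ⟨∅, Set.countable_empty, fun h => absurd h hV⟩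
  choose a ha1 ha2 using hbound
  let W : Set (Set YY) := {V | V ∈ 𝒱 n ∧ {z : YY | z.a ⊆ β ∧ z ∉ V}.Countable}
  have hWinf : W.Infinite := by
    intro hWfin
    have hAs : (β ∪ ⋃ V ∈ W, a V).Countable :=
      hβ.union (hWfin.countable.biUnion (fun V _ => ha1 V))
    have hr : ∃ r : ℝ, r ∉ (β ∪ ⋃ V ∈ W, a V) := by
      by_contra hcon
      push Not at hcon
      apply huncR
      exact hAs.mono (fun r _ => hcon r)
    obtain ⟨r, hr⟩ := hr
    obtain ⟨ξ, hξ, hξ2⟩ := hcof (insert r (β ∪ ⋃ V ∈ W, a V)) (hAs.insert r)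
    obtain ⟨V, hV1, hV2⟩ := hξ.1
    have hβξ : β ⊆ ξ.a := (subset_union_left.trans (subset_insert _ _)).trans hξ2
    have hVW : V ∈ W := by
      refine ⟨hV1, ?_⟩
      refine (((isOpenY V).mp (h𝒱 n V hV1).1) ξ hV2).mono ?_
      rintro z ⟨hz1, hz2⟩
      exact ⟨hz1.trans hβξ, hz2⟩
    have h5 : ξ.a ⊆ a V := ha2 V hV1 ξ hV2
    apply hr
    right
    exact mem_biUnion hVW (h5 (hξ2 (mem_insert _ _)))
  let e := hWinf.natEmbedding
  have hbad : (⋃ k : ℕ, {z : YY | z.a ⊆ β ∧ z ∉ (e k).1}).Countable :=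
    Set.countable_iUnion (fun k => (e k).2.2)
  have hinj : Function.Injective (fun t : ℝ => YY.mk β hβ t) := by
    intro t t' h
    injection h
  have hex2 : ∃ t : ℝ, YY.mk β hβ t ∈ S n ∧
      YY.mk β hβ t ∉ ⋃ k : ℕ, {z : YY | z.a ⊆ β ∧ z ∉ (e k).1} := by
    by_contra hcon
    push Not at hcon
    apply hn
    refine (hbad.preimage hinj).mono ?_
    intro t ht
    exact hcon t ht
  obtain ⟨t, ht1, ht2⟩ := hex2
  have hall : ∀ k : ℕ, YY.mk β hβ t ∈ (e k).1 := by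
    intro k
    by_contra h
    exact ht2 (mem_iUnion.mpr ⟨k, Subset.rfl, h⟩)
  have hinf : {V | V ∈ 𝒱 n ∧ YY.mk β hβ t ∈ V}.Infinite := by
    have h6 : (Set.range (fun k : ℕ => (e k).1)).Infinite :=
      Set.infinite_range_of_injective (fun i j h => e.injective (Subtype.ext h))
    refine h6.mono ?_
    rintro V ⟨k, rfl⟩
    exact ⟨(e k).2.1, hall k⟩
  exact hinf ht1.2

/-- Q1 has a negative answer for `T1` spaces. -/
theorem result : ∃ (X Y : Type) (_ : TopologicalSpace X) (_ : TopologicalSpace Y),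
    T1Space X ∧ T1Space Y ∧ WeaklyThetaRefinable X ∧
    (∃ f : X → Y, Continuous f ∧ Function.Surjective f ∧ IsClosedMap f) ∧
    ¬ WeaklyThetaRefinable Y :=
  ⟨XX, YY, topX, topY, t1X, t1Y, wtrX, ⟨ff, cont_ff, surj_ff, closed_ff⟩, not_wtrY⟩

end Pool.Agent.Results.MP_55e6a3_gt.ClosedImage
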